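import Pool.Agent.H12.KSJ.Targets

/-! Row PIG. -/

set_option autoImplicit false

open CategoryTheory TopologicalSpace Opposite AlgebraicGeometry Limits
open Pool.Agent.H62.MK Pool.Agent.H84.KEW Pool.Agent.H19.KN
open Pool.Agent.H17.KW (kap Pts entry column dFam D dD Gersten topSh KSh redSh thick thickι Fsh AbSh
  cycK)
open Pool.Agent.H12.KG (Sp GenSp kA stA rho projStr)
open Pool.Agent.H15.KEW (prm prm_le_iff prm_inj exists_prm rho_stA sp_iff)

universe u

namespace Pool.Agent.H68.KSJ

open Pool.Agent.H12.KSJ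

theorem pf_PIG : T_PIG.{u} := by
  intro A _ X f π v y h hv hy hfin hcod G hG
  have key : stA f y π ∈ ((prm h).asIdeal ⊔ Ideal.span {G}).radical := by
    rw [Ideal.radical_eq_sInf, Submodule.mem_sInf]
    rintro J ⟨hJ, hJp⟩
    obtain ⟨w', h', e⟩ := exists_prm (y := y) (⟨J, hJp⟩ : PrimeSpectrum (X.presheaf.stalk y))
    have eJ : (prm h').asIdeal = J := by rw [e]
    have hle : prm h ≤ prm h' := by
      show (prm h).asIdeal ≤ (prm h').asIdeal
      rw [eJ]
      exact le_sup_left.trans hJ
    have hvw : v ⤳ w' := (prm_le_iff h h').1 hle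
    have hGJ : G ∈ (prm h').asIdeal := by
      rw [eJ]
      exact hJ (Ideal.mem_sup_right (Ideal.mem_span_singleton_self G))
    have hne : v ≠ w' := by
      rintro rfl
      exact hG hGJ
    by_cases hwy : w' = y
    · subst hwy
      rw [← eJ]
      exact (sp_iff f π h').1 hy
    · exfalso
      have c1 := Pool.Agent.H17.KE.coheight_lt_of_specializes h' hwy hfin
      have c2 := Pool.Agent.H17.KE.coheight_lt_of_specializes hvw hne (c1.trans hfin)
      exact absurd (hcod.trans (Order.add_one_le_of_lt c2)) (not_le.2 c1)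
  obtain ⟨M, hM⟩ := key
  obtain ⟨g, hg, k, hk, e⟩ := Submodule.mem_sup.1 hM
  obtain ⟨c, rfl⟩ := Ideal.mem_span_singleton'.1 hk
  refine ⟨M, c, ?_⟩
  have e2 := congrArg (rho h) e
  have hg0 : rho h g = 0 := hg
  rw [map_add, hg0, zero_add, map_pow, rho_stA] at e2
  rw [← e2, mul_comm]

end Pool.Agent.H68.KSJ
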