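import Pool.Agent.H12.KSJ.Targets

/-! Row R1U. -/

set_option autoImplicit false

open CategoryTheory TopologicalSpace Opposite AlgebraicGeometry Limits
open Pool.Agent.H62.MK Pool.Agent.H84.KEW Pool.Agent.H19.KN

universe u

namespace Pool.Agent.H68.KSJ

open Pool.Agent.H12.KSJ

theorem pf_R1U : T_R1U.{u} := by
  intro O F _ _ _ _ n a i t ht hai
  refine (AddSubgroup.mem_bot).1 (gerstenResidue_mem n _ ⊥ fun V => ?_)
  rw [AddSubgroup.mem_bot]
  haveI := V.dvr
  have hu1 : IsUnit (1 + t) := by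
    by_contra hnu
    have h1 : 1 + t ∈ IsLocalRing.maximalIdeal O := (IsLocalRing.mem_maximalIdeal _).2 hnu
    have h2 : (1 : O) ∈ IsLocalRing.maximalIdeal O := by
      have := (IsLocalRing.maximalIdeal O).sub_mem h1 ht
      rwa [add_sub_cancel_right] at this
    exact (Ideal.ne_top_iff_one _).1 (Ideal.IsPrime.ne_top inferInstance) h2
  obtain ⟨u1, hu1⟩ := hu1
  have hmem := V.mem_of_unit (a i) ⟨u1, by rw [hu1, map_add, map_one, hai]⟩
  have hord : (valDV V.val).ord (a i) = 0 := valDV_ord_eq_zero V.val (a i) hmem.1 hmem.2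
  have htV : (⟨algebraMap O F t, V.mem t⟩ : V.val) ∈ IsLocalRing.maximalIdeal V.val := V.dom t ht
  have hres : IsLocalRing.residue V.val (⟨(a i : F), hmem.1⟩ : V.val) = 1 := by
    have e : (⟨(a i : F), hmem.1⟩ : V.val) = 1 + (⟨algebraMap O F t, V.mem t⟩ : V.val) := by
      apply Subtype.ext
      exact hai
    rw [e, map_add, map_one, (IsLocalRing.residue_eq_zero_iff _).2 htV, add_zero]
  have hures : (valDV V.val).ures (a i) = 1 := by
    rw [(valDV V.val).ures_of_ord_eq_zero (a i) hord]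
    apply Units.ext
    simp only [DV.resUnit, Units.val_mk0, Units.val_one]
    rw [← hres]
    exact valDV_res V.val (⟨(a i : F), hmem.1⟩ : V.val) _
  unfold Dom.residue
  rw [AddMonoidHom.comp_apply]
  have h0 := ((ok_TSL F _ (valDV V.val) n a i hord).1) hures
  erw [h0]
  exact map_zero _

end Pool.Agent.H68.KSJ
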